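import Pool.Agent.H.MP_0f8bf3_al.C

open Set

namespace Pool.Agent.H.MP_d888c1_al

open Pool.Agent.H.MP_0f8bf3_al

lemma ex_α (n : ℕ) : ∃ α : Fin n → ℝ, (∀ i, |α i| ≤ 1) ∧
    ∀ (w : Fin n → ℤ) (k : ℤ), ∑ i, (w i : ℝ) * α i = k → w = 0 := by
  have tr := transcendental_liouvilleNumber (m := 2) le_rfl
  set c := liouvilleNumber (2:ℕ)
  refine ⟨fun i => Int.fract (c ^ (i.1 + 1)), fun i => ?_, fun w k e => ?_⟩
  · rw [abs_of_nonneg (Int.fract_nonneg _)]; exact (Int.fract_lt_one _).le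
  · have := (transcendental_iff.1 tr) (∑ i : Fin n, Polynomial.monomial (i.1 + 1) (w i)
      - Polynomial.C (k + ∑ i : Fin n, w i * ⌊c ^ (i.1 + 1)⌋)) (by
        rw [map_sub, Polynomial.aeval_C]
        simp only [map_sum, Polynomial.aeval_monomial, algebraMap_int_eq, eq_intCast]
        simp only [Int.fract, mul_sub, Finset.sum_sub_distrib] at e
        push_cast
        rw [sub_eq_zero, ← e, sub_add_cancel])
    ext i
    have e2 := congrArg (fun p => Polynomial.coeff p (i.1 + 1)) this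
    simp only [Polynomial.coeff_sub, Polynomial.finset_sum_coeff, Polynomial.coeff_monomial,
      Polynomial.coeff_C_succ, add_left_inj, Fin.val_inj, Finset.sum_ite_eq', Finset.mem_univ,
      if_true, sub_zero, Polynomial.coeff_zero] at e2
    exact e2

abbrev I := Icc (0 : V) 1

def Good (g : I → I) : Prop :=
  Continuous g ∧ ∃ (k : ℕ) (S : Fin k → Finset V) (A : Fin k → (V →ᵃ[ℝ] V)),
    (∀ x : I, ∃ i, x.1 ∈ convexHull ℝ (↑(S i) : Set V)) ∧
    (∀ i, ∀ x : I, x.1 ∈ convexHull ℝ (↑(S i) : Set V) → (g x).1 = A i x.1)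

noncomputable def cc : V →ᵃ[ℝ] V := (2:ℝ) • AffineMap.id ℝ V - AffineMap.const ℝ V 1
noncomputable def dd : V →ᵃ[ℝ] V := (1/2:ℝ) • (AffineMap.id ℝ V + AffineMap.const ℝ V 1)

lemma cc_dd (z : V) : cc (dd z) = z := by ext i; simp [cc, dd]
lemma dd_cc (z : V) : dd (cc z) = z := by ext i; simp [cc, dd]; ring

lemma mem_I (z : V) : z ∈ I ↔ ‖cc z‖ ≤ 1 := by
  simp only [mem_Icc, Pi.le_def, pi_norm_le_iff_of_nonneg zero_le_one, Real.norm_eq_abs, abs_le,
    ← forall_and]
  apply forall_congr'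
  intro i
  simp [cc]
  intro _
  constructor <;> intro <;> linarith

lemma I_poly : IsPoly I := by
  have : I = cc ⁻¹' Metric.closedBall 0 1 := by
    ext z; rw [mem_I]; simp
  rw [this]; exact cube_poly.preimage _

lemma good {g : I → I} {f : V → V} (h : PL I f) (e : ∀ x : I, (g x).1 = f x) : Good g := by
  obtain ⟨S, a, b, c, d⟩ := h
  haveI := a.to_subtype
  constructor
  · have : ContinuousOn f I := by
      have e : I = ⋃ p : S, I ∩ p.1.1 := by
        ext x
        simp only [mem_iUnion, mem_inter_iff]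
        exact ⟨fun hx => let ⟨p, hp, h⟩ := c x hx; ⟨⟨p, hp⟩, hx, h⟩, fun ⟨_, h, _⟩ => h⟩
      rw [e]
      apply (locallyFinite_of_finite _).continuousOn_iUnion
        (fun p => isClosed_Icc.inter (b _ p.2).closed)
      intro p
      exact p.1.2.continuous_of_finiteDimensional.continuousOn.congr
        fun x hx => d _ p.2 x hx.1 hx.2
    rw [continuous_induced_rng]
    exact this.restrict.congr fun x => (e x).symm
  · obtain ⟨m, ⟨q⟩⟩ := Finite.exists_equiv_fin S
    have k : ∀ j, ∃ s : Finset V, (q.symm j).1.1 ∩ I = convexHull ℝ (s : Set V) := fun j =>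
      ((b _ (q.symm j).2).inter I_poly).hull (isCompact_Icc.inter_left (b _ (q.symm j).2).closed)
    choose s hs using k
    refine ⟨m, s, fun j => (q.symm j).1.2, ?_, ?_⟩
    · intro x
      obtain ⟨p, hp, h⟩ := c x x.2
      exact ⟨q ⟨p, hp⟩, by rw [← hs]; exact ⟨by simpa using h, x.2⟩⟩
    · intro j x h
      rw [← hs] at h
      rw [e]; exact d _ (q.symm j).2 x x.2 h.1

noncomputable def F (t : ℝ) (Θ : ℝ × ℝ → ℝ → ℝ) (z : V) : V :=
  mk (ρ t (yy z), ρ (Θ (yy z) ‖xx z‖) (xx z))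

lemma F_norm (t : ℝ) (Θ : ℝ × ℝ → ℝ → ℝ) (z : V) : ‖F t Θ z‖ = ‖z‖ := by
  rw [F, mk_norm, ρ_norm, ρ_norm, norm_eq]

lemma F_F (t t' : ℝ) (Θ Θ' : ℝ × ℝ → ℝ → ℝ) (z : V) :
    F t Θ (F t' Θ' z) = F (t + t') (fun p r => Θ (ρ t' p) r + Θ' p r) z := by
  simp only [F, yy_mk, xx_mk, ρ_add, ρ_norm]

lemma F_zero (z : V) : F 0 (fun _ _ => 0) z = z := by simp [F, ρ_zero, mk_eta]

noncomputable def K (t : ℝ) (Θ : ℝ × ℝ → ℝ → ℝ) (z : I) : I :=
  ⟨dd (F t Θ (cc z)), by rw [mem_I, cc_dd, F_norm, ← mem_I]; exact z.2⟩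

lemma K_K (t t' : ℝ) (Θ Θ' : ℝ × ℝ → ℝ → ℝ) (z : I) :
    K t Θ (K t' Θ' z) = K (t + t') (fun p r => Θ (ρ t' p) r + Θ' p r) z := by
  simp only [K, cc_dd, F_F]

lemma K_zero (z : I) : K 0 (fun _ _ => 0) z = z := by simp only [K, F_zero, dd_cc]

noncomputable def E (t : ℝ) (Θ : ℝ × ℝ → ℝ → ℝ) : Equiv.Perm I where
  toFun := K t Θ
  invFun := K (-t) (fun p r => -Θ (ρ (-t) p) r)
  left_inv z := by simp only [K_K, ρ_add, neg_add_cancel, ρ_zero, K_zero]
  right_inv z := by simp only [K_K, add_neg_cancel, K_zero]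

lemma E_mul (t t' : ℝ) (Θ Θ' : ℝ × ℝ → ℝ → ℝ) :
    E t Θ * E t' Θ' = E (t + t') (fun p r => Θ (ρ t' p) r + Θ' p r) :=
  Equiv.ext fun z => K_K _ _ _ _ z

lemma E_inv (t : ℝ) (Θ : ℝ × ℝ → ℝ → ℝ) : (E t Θ)⁻¹ = E (-t) (fun p r => -Θ (ρ (-t) p) r) :=
  Equiv.ext fun _ => rfl

lemma E_zero : E 0 (fun _ _ => 0) = 1 := Equiv.ext K_zero

lemma E_zpow (t : ℝ) (Θ : ℝ × ℝ → ℝ → ℝ) (h : ∀ s p, Θ (ρ (s * t) p) = Θ p) (k : ℤ) :
    E t Θ ^ k = E (k * t) (fun p r => k * Θ p r) := by
  induction k using Int.induction_on with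
  | zero => simp [E_zero]
  | succ k ih =>
    rw [zpow_add_one, ih, E_mul]
    have := h 1
    simp only [one_mul] at this
    simp only [this]
    congr 1
    · push_cast; ring
    · ext; push_cast; ring
  | pred k ih =>
    rw [zpow_sub_one, ih, E_inv, E_mul]
    have := h (-1)
    simp only [neg_one_mul] at this
    simp only [this]
    congr 1
    · push_cast; ring
    · ext; push_cast; ring

noncomputable def cl (p : ℝ × ℝ) (r : ℝ) : ℝ := max (-r) (min r p.1) / r

lemma K_good {t c : ℝ} (ht : |t| ≤ 1) (hc : |c| ≤ 1) : Good (K t (fun p r => c * cl p r)) := by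
  have z := PL.affine I cc
  have y := z.lin yy
  have x := z.lin xx
  have f := x.norm.neg.max (x.norm.min y.fst)
  refine good (f := fun z => dd (F t (fun p r => c * cl p r) (cc z))) ?_ fun _ => rfl
  refine (PL.affine univ dd).comp ?_ fun _ _ => trivial
  refine ((y.ρ (θ := fun _ => t) (y.norm.cmul t) fun _ _ => ht).prod
    (x.ρ (θ := fun z => c * cl (yy (cc z)) ‖xx (cc z)‖) ((f.cmul c).congr fun z _ => ?_)
      fun z _ => ?_)).lin mk
  · rcases eq_or_lt_of_le (norm_nonneg (xx (cc z))) with e | e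
    · rw [← e]; simp
    · rw [cl, mul_assoc, div_mul_cancel₀ _ e.ne']
  · rw [abs_mul]
    refine mul_le_one₀ hc (abs_nonneg _) ?_
    have := norm_nonneg (xx (cc z))
    rw [cl, abs_div, abs_norm]
    exact div_le_one_of_le₀ (abs_le.2 ⟨le_max_left _ _, max_le (by linarith) (min_le_left _ _)⟩) this

lemma prod_t {n : ℕ} (β : Fin n → ℝ) :
    (List.ofFn fun i => E (β i) (fun _ _ => 0)).prod = E (∑ i, β i) (fun _ _ => 0) := by
  induction n with
  | zero => simp [E_zero]
  | succ n ih => rw [List.ofFn_succ, List.prod_cons, ih, E_mul, Fin.sum_univ_succ]; simp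

lemma prod_l {ι : Type} (l : List ι) (Θ : ι → ℝ × ℝ → ℝ → ℝ) :
    (l.map fun i => E 0 (Θ i)).prod = E 0 (fun p r => (l.map fun i => Θ i p r).sum) := by
  induction l with
  | nil => simp [E_zero]
  | cons i l ih => rw [List.map_cons, List.prod_cons, ih, E_mul]; simp [ρ_zero]

lemma E_one {t : ℝ} {Θ : ℝ × ℝ → ℝ → ℝ} (h : E t Θ = 1) (p : ℝ × ℝ) (hp : ‖p‖ ≤ 1) :
    ρ t p = p ∧ ∃ j : ℤ, Θ p 1 = 8 * j := by
  have := congrArg (fun g : Equiv.Perm I => cc (g ⟨dd (mk (p, γ 0)), by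
    rw [mem_I, cc_dd, mk_norm, γ_norm, max_eq_right hp]⟩).1) h
  simp only [E, K, Equiv.coe_fn_mk, cc_dd, Equiv.Perm.coe_one, id, F, yy_mk, xx_mk, γ_norm] at this
  exact ⟨congrArg yy this, ρ_fix (congrArg xx this)⟩

theorem main : ∃ (a : Equiv.Perm I) (t : Fin 5 → Equiv.Perm I),
        (∀ g : Equiv.Perm I,
            (g = a ∨ ∃ i, g = t i) →
              Continuous ⇑g ∧ Continuous ⇑g.symm ∧
              ∃ (k : ℕ) (S : Fin k → Finset V)
                (A : Fin k → (V →ᵃ[ℝ] V)),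
                (∀ x : I,
                    ∃ i, x.1 ∈ convexHull ℝ (↑(S i) : Set V)) ∧
                (∀ i, ∀ x : I,
                    x.1 ∈ convexHull ℝ (↑(S i) : Set V) →
                      (g x).1 = A i x.1)) ∧
        (∀ i j, t i * t j = t j * t i) ∧
        (∀ v w : Fin 5 → ℤ,
            Commute
              ((List.ofFn fun i => t i ^ v i).prod * a * ((List.ofFn fun i => t i ^ v i).prod)⁻¹)
              ((List.ofFn fun i => t i ^ w i).prod * a * ((List.ofFn fun i => t i ^ w i).prod)⁻¹)) ∧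
        (∀ (l : List ((Fin 5 → ℤ) × ℤ)) (v : Fin 5 → ℤ),
            (l.map Prod.fst).Nodup →
            (l.map (fun p : (Fin 5 → ℤ) × ℤ =>
                ((List.ofFn fun i => t i ^ p.1 i).prod * a *
                  ((List.ofFn fun i => t i ^ p.1 i).prod)⁻¹) ^ p.2)).prod *
              (List.ofFn fun i => t i ^ v i).prod = 1 →
            v = 0 ∧ ∀ p ∈ l, p.2 = 0) := by
  obtain ⟨α, h1, h2⟩ := ex_α 5
  set a : (Fin 5 → ℤ) → ℝ := fun v => ∑ i, (v i : ℝ) * α i with ha
  have P : ∀ v : Fin 5 → ℤ, (List.ofFn fun i => E (α i) (fun _ _ => 0) ^ v i).prod =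
      E (a v) (fun _ _ => 0) := by
    intro v
    simp only [E_zpow _ (fun _ _ => 0) (fun _ _ => rfl), mul_zero, prod_t, ha]
  have C : ∀ s, E s (fun _ _ => 0) * E 0 cl * (E s (fun _ _ => 0))⁻¹ =
      E 0 (fun p => cl (ρ (-s) p)) := by
    intro s
    simp [E_inv, E_mul]
  refine ⟨E 0 cl, fun i => E (α i) (fun _ _ => 0), ?_, ?_, ?_, ?_⟩
  · rintro g (rfl | ⟨i, rfl⟩)
    · have a1 := K_good (t := 0) (c := 1) (by simp) (by simp)
      have a2 := K_good (t := 0) (c := -1) (by simp) (by simp)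
      simp only [one_mul, neg_mul] at a1 a2
      refine ⟨a1.1, ?_, a1.2⟩
      simpa [E, ρ_zero] using a2.1
    · have a1 := K_good (t := α i) (c := 0) (h1 i) (by simp)
      have a2 := K_good (t := -α i) (c := 0) (by simpa using h1 i) (by simp)
      simp only [zero_mul] at a1 a2
      refine ⟨a1.1, ?_, a1.2⟩
      simpa [E] using a2.1
  · intro i j
    simp only [E_mul, add_comm]
  · intro v w
    simp only [P, C]
    simp only [Commute, SemiconjBy, E_mul, ρ_zero, add_comm]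
  · intro l v nd e
    simp only [P, C] at e
    have Z : ∀ Θ (k : ℤ), E 0 Θ ^ k = E 0 (fun p r => k * Θ p r) := fun Θ k => by
      rw [E_zpow 0 _ (fun s p => by rw [mul_zero, ρ_zero]), mul_zero]
    simp only [Z] at e
    rw [prod_l, E_mul] at e
    obtain ⟨j, hj⟩ := ρ_fix (E_one e _ (γ_norm 0).le).1
    have v0 : v = 0 := h2 v (8 * j) (by push_cast; rw [← hj, zero_add])
    refine ⟨v0, ?_⟩
    have av : a v = 0 := by simp [v0, ha]
    simp only [av, ρ_zero, add_zero] at e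
    have := indep (ι := Fin l.length) (fun i => a (l.get i).1) (fun i j k e => by
      have : (l.get i).1 - (l.get j).1 = 0 := h2 _ (2 * k) (by
        push_cast; rw [← e]; simp [ha, sub_mul])
      have e2 := List.nodup_iff_injective_getElem.1 nd
        (a₁ := ⟨i.1, by simp⟩) (a₂ := ⟨j.1, by simp⟩) (by simpa using sub_eq_zero.1 this)
      exact Fin.ext (by simpa using e2))
      (Finsupp.equivFunOnFinite.symm fun i => (l.get i).2) ?_
    · intro p hp
      obtain ⟨i, rfl⟩ := List.get_of_mem hp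
      exact DFunLike.congr_fun this i
    intro s
    rw [Finset.sum_subset (Finset.subset_univ _) (fun i _ hi => by
      rw [Finsupp.notMem_support_iff.1 hi]; simp)]
    set S := ∑ w : Fin l.length, ((Finsupp.equivFunOnFinite.symm fun i => (l.get i).2) w : ℝ) *
      h (s - a (l.get w).1) with hS
    have k : ∀ r : ℝ, 0 ≤ r → r ≤ 1 / 2 → ∃ j : ℤ, r * S = 8 * j := by
      intro r r0 r1
      obtain ⟨j, hj⟩ := (E_one e (r • γ s) (by rw [nrm r0]; linarith)).2
      refine ⟨j, ?_⟩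
      rw [← hj, hS, Finset.mul_sum, ← List.ofFn_getElem_eq_map, List.sum_ofFn]
      apply Finset.sum_congr rfl
      intro w _
      have n := abs_le.1 ((norm_fst_le (r • γ (s + -a (l[w.1]).1))).trans
        ((nrm r0 _).le.trans (show r ≤ 1 by linarith)))
      rw [ρ_eq r0, cl, div_one, min_eq_right n.2, max_eq_right n.1]
      simp only [γ, Prod.smul_mk, smul_eq_mul, sub_eq_add_neg]
      simp
      ring
    have p : 0 < |S| + 2 := by positivity
    obtain ⟨j, hj⟩ := k (1 / (|S| + 2)) (by positivity)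
      (one_div_le_one_div_of_le (by norm_num) (by linarith [abs_nonneg S]))
    have b : |1 / (|S| + 2) * S| < 1 := by
      rw [abs_mul, abs_of_pos (by positivity), one_div, inv_mul_lt_iff₀ p]; linarith
    rw [hj, abs_lt] at b
    have j1 : (-1:ℝ) < j := by linarith [b.1]
    have j2 : (j:ℝ) < 1 := by linarith [b.2]
    have j0 : j = 0 := by
      have : -1 < j := by exact_mod_cast j1
      have : j < 1 := by exact_mod_cast j2
      omega
    rw [j0] at hj
    simpa [p.ne'] using hj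

end Pool.Agent.H.MP_d888c1_al
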